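import Pool.Agent.V11327.MMprob

/-!
# The value of the noisy min-max game on the binary tree converges in distribution

Let `x n i = P (V_n ≤ 2 i)`. The inequality `x (i + 1) ≥ h (x i)`, `h p = 2 √p - p`, is preserved, and
`x (n + 1) i ≥ (9 / 64) (x n (i + 1)) ^ 2`; together they give `x (n + j) i ≥ (9 / 64) x n i`. With
`f i = lim_j h^[j] (liminf_n x n (i - j))` one has `f (i + 1) = h (f i)` and the relative excess
`limsup_n x n i / f i - 1` grows geometrically to the left unless it vanishes, while it is bounded.
-/

set_option autoImplicit false

open MeasureTheory ProbabilityTheory Filter Topology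
open Pool.Agent.V11327.MM

namespace Pool.Agent.Results.MP_a87fbc_pr.Converges

/-- The values `V_n` of the noisy min-max game on the binary tree converge in distribution. -/
theorem result : ∃ (ν : Measure ℤ) (_ : IsProbabilityMeasure ν),
    ∀ (Ω : Type) (_ : MeasurableSpace Ω) (P : Measure Ω) (_ : IsProbabilityMeasure P)
      (X : List Bool → Ω → ℤ), IsCookies P X →
      TendstoInDistribution (fun (n : ℕ) ω => val (fun v => X v ω) (2 * n) []) atTop (id : ℤ → ℤ)
        (fun _ => P) ν :=
  ⟨nu, inferInstance, fun _ _ _ _ _ h => main h⟩

end Pool.Agent.Results.MP_a87fbc_pr.Converges
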